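import Pool.Agent.Helper9.CRT.Defs
import Pool.Agent.Helper9.Sym.Bridge

/-!
In the model with atoms, the set of atoms is CRT-finite and satisfies `RT²_n` for all `n`.
-/

namespace Pool.Agent.Helper9.CRT

open Pool.Agent.Helper73.Sym

variable {M : Type*} [Membership M M]

/-! ### formulas -/

def pairF (x y z : ℕ) : Fml := .all (.iff (.mem 0 (z + 1)) (.or (.eq 0 (x + 1)) (.eq 0 (y + 1))))

def opairF (x y z : ℕ) : Fml :=
  .ex (.ex (.and (pairF (x + 2) (x + 2) 1) (.and (pairF (x + 2) (y + 2) 0) (pairF 1 0 (z + 2)))))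

def relF (r x y : ℕ) : Fml := .ex (.and (opairF (x + 1) (y + 1) 0) (.mem 0 (r + 1)))

def valueF (f x y k : ℕ) : Fml := .ex (.and (pairF (x + 1) (y + 1) 0) (relF (f + 1) 0 (k + 1)))

theorem sat_pairF (x y z : ℕ) (v : ℕ → M) :
    Sat (pairF x y z) v ↔ IsPair (v x) (v y) (v z) := by
  simp [pairF, IsPair]

theorem sat_opairF (x y z : ℕ) (v : ℕ → M) :
    Sat (opairF x y z) v ↔ IsOPair (v x) (v y) (v z) := by
  simp [opairF, sat_pairF, IsOPair]

theorem sat_relF (r x y : ℕ) (v : ℕ → M) :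
    Sat (relF r x y) v ↔ Rel (v r) (v x) (v y) := by
  simp [relF, sat_opairF, Rel]

theorem sat_valueF (f x y k : ℕ) (v : ℕ → M) :
    Sat (valueF f x y k) v ↔ Value (v f) (v x) (v y) (v k) := by
  simp [valueF, sat_pairF, sat_relF, Value]

/-! ### translation to the library -/

section

variable [IsZF M]

theorem isPair_iff {x y z : M} : IsPair x y z ↔ z = upair x y := by
  constructor
  · intro h; exact mext fun w => by rw [h, mem_upair]
  · rintro rfl w; exact mem_upair x y w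

theorem isOPair_iff {x y z : M} : IsOPair x y z ↔ z = op x y := by
  constructor
  · rintro ⟨a, b, ha, hb, h⟩
    rw [isPair_iff] at ha hb h
    rw [h, ha, hb, op]
  · rintro rfl
    exact ⟨_, _, isPair_iff.2 rfl, isPair_iff.2 rfl, isPair_iff.2 rfl⟩

theorem rel_iff {r x y : M} : Rel r x y ↔ op x y ∈ r := by
  constructor
  · rintro ⟨z, hz, h⟩
    rw [isOPair_iff] at hz
    rwa [← hz]
  · intro h
    exact ⟨_, isOPair_iff.2 rfl, h⟩

theorem value_iff {f x y k : M} : Value f x y k ↔ op (upair x y) k ∈ f := by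
  constructor
  · rintro ⟨z, hz, h⟩
    rw [isPair_iff] at hz
    rw [← hz]
    exact rel_iff.1 h
  · intro h
    exact ⟨_, isPair_iff.2 rfl, rel_iff.2 h⟩

theorem upair_comm (x y : M) : upair x y = upair y x := mext fun z => by
  rw [mem_upair, mem_upair, or_comm]

end

section

variable [StdZF M]

theorem isNat_nat (n : ℕ) : IsNat (nat n : M) := by
  intro w hw
  induction n with
  | zero =>
    obtain ⟨e, he, h⟩ := hw.1
    have : e = nat 0 := mext fun z => iff_of_false (h z) (mem_nat_zero z)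
    rwa [← this]
  | succ n ih =>
    obtain ⟨s, hs, h⟩ := hw.2 _ ih
    have : s = nat (n + 1) := mext fun z => by rw [h, mem_nat_succ]
    rwa [← this]

theorem isNat_iff {n : M} : IsNat n ↔ ∃ k : ℕ, n = nat k := by
  constructor
  · intro h
    rw [← mem_om]
    refine h om ⟨⟨nat 0, nat_mem_om 0, mem_nat_zero⟩, fun y hy => ?_⟩
    obtain ⟨k, rfl⟩ := (mem_om y).1 hy
    exact ⟨nat (k + 1), nat_mem_om _, mem_nat_succ k⟩
  · rintro ⟨k, rfl⟩
    exact isNat_nat k

theorem isFinite_iff {X : M} : IsFinite X ↔ {z : M | z ∈ X}.Finite := by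
  constructor
  · rintro ⟨n, f, hn, ⟨h0, h1⟩, h2⟩
    obtain ⟨n, rfl⟩ := isNat_iff.1 hn
    choose! F hF using h1
    refine ((Set.finite_Iio n).image (fun k => F (nat k))).subset ?_
    intro y hy
    obtain ⟨x, hx, -⟩ := h2 y hy
    obtain ⟨x', y', hx', -, he⟩ := h0 _ (rel_iff.1 hx)
    rw [isOPair_iff, op_inj] at he
    obtain ⟨rfl, rfl⟩ := he
    obtain ⟨k, hk, rfl⟩ := (mem_nat n x).1 hx'
    exact ⟨k, hk, ((hF _ hx').2 _ hx).symm⟩
  · intro h
    have : Finite {z : M | z ∈ X} := h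
    obtain ⟨n, ⟨e⟩⟩ := Finite.exists_equiv_fin {z : M | z ∈ X}
    obtain ⟨f, hf, -⟩ := exists_finite_set (M := M)
      (Set.finite_range (fun k : Fin n => op (nat k.1) (e.symm k).1))
    have hrel : ∀ x y : M, Rel f x y ↔ ∃ k : Fin n, nat k.1 = x ∧ (e.symm k).1 = y := by
      intro x y
      rw [rel_iff, hf, Set.mem_range]
      exact exists_congr fun k => op_inj
    refine ⟨nat n, f, isNat_nat n, ⟨?_, ?_⟩, ?_⟩
    · intro z hz
      obtain ⟨k, hk⟩ := (hf z).1 hz
      exact ⟨nat k.1, (e.symm k).1, nat_mem_nat.2 k.2, (e.symm k).2, isOPair_iff.2 hk.symm⟩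
    · intro x hx
      obtain ⟨k, hk, rfl⟩ := (mem_nat n x).1 hx
      refine ⟨(e.symm ⟨k, hk⟩).1, (hrel _ _).2 ⟨⟨k, hk⟩, rfl, rfl⟩, fun y hy => ?_⟩
      obtain ⟨l, hl, rfl⟩ := (hrel _ _).1 hy
      obtain rfl : l = ⟨k, hk⟩ := Fin.ext (nat_inj.1 hl)
      rfl
    · intro y hy
      refine ⟨nat (e ⟨y, hy⟩).1, (hrel _ _).2 ⟨e ⟨y, hy⟩, rfl, by simp⟩, fun x hx => ?_⟩
      obtain ⟨l, rfl, hl⟩ := (hrel _ _).1 hx
      have : l = e ⟨y, hy⟩ := by
        rw [← e.symm_apply_eq]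
        exact Subtype.ext hl
      rw [this]

theorem exists_pairs (X : M) : ∃ Z : M, IsPairs X Z := by
  refine ⟨sep (pw X) (fun z => ∃ x y : M, x ∈ X ∧ y ∈ X ∧ ¬ x = y ∧ z = upair x y), fun z => ?_⟩
  rw [mem_sep, mem_pw]
  constructor
  · rintro ⟨-, x, y, hx, hy, hxy, rfl⟩
    exact ⟨x, y, hx, hy, hxy, isPair_iff.2 rfl⟩
  · rintro ⟨x, y, hx, hy, hxy, hz⟩
    rw [isPair_iff] at hz
    refine ⟨?_, x, y, hx, hy, hxy, hz⟩
    subst hz
    intro w hw
    rw [mem_upair] at hw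
    rcases hw with rfl | rfl
    · exact hx
    · exact hy

theorem isFun_lam (Z : M) (c : M) : IsFun (lam Z (fun _ => c)) Z (upair c c) := by
  constructor
  · intro z hz
    have h := (lam_fn (x := Z) (y := upair c c) (f := fun _ => c)
      fun a _ => (mem_upair c c c).2 (Or.inl rfl)).1 z hz
    obtain ⟨a, ha, b, hb, h⟩ := h
    exact ⟨a, b, ha, hb, isOPair_iff.2 h⟩
  · intro x hx
    refine ⟨c, rel_iff.2 ((op_mem_lam Z _ x c).2 ⟨hx, rfl⟩), fun y hy => ?_⟩
    exact ((op_mem_lam Z _ x y).1 (rel_iff.1 hy)).2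

end

/-! ### the main result -/

theorem exists_perm {E : Finset ℕ} {i j i' j' : ℕ} (hi : i ∉ E) (hj : j ∉ E) (hi' : i' ∉ E)
    (hj' : j' ∉ E) (hij : i ≠ j) (hij' : i' ≠ j') :
    ∃ π : Equiv.Perm ℕ, (∀ e ∈ E, π e = e) ∧ π i = i' ∧ π j = j' := by
  have h1 : Equiv.swap i i' j ≠ i' := by
    intro h
    have := Equiv.swap_apply_left i i'
    exact hij ((Equiv.swap i i').injective (this.trans h.symm))
  refine ⟨Equiv.swap (Equiv.swap i i' j) j' * Equiv.swap i i', fun e he => ?_, ?_, ?_⟩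
  · have h2 : Equiv.swap i i' e = e :=
      Equiv.swap_apply_of_ne_of_ne (by rintro rfl; exact hi he) (by rintro rfl; exact hi' he)
    rw [Equiv.Perm.mul_apply, h2]
    refine Equiv.swap_apply_of_ne_of_ne ?_ (by rintro rfl; exact hj' he)
    intro h
    have h3 : e = j := (Equiv.swap i i').injective (h2.trans h)
    exact hj (h3 ▸ he)
  · rw [Equiv.Perm.mul_apply, Equiv.swap_apply_left]
    exact Equiv.swap_apply_of_ne_of_ne h1.symm hij'
  · rw [Equiv.Perm.mul_apply, Equiv.swap_apply_left]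

theorem main : ∃ (M : Type 1) (_ : Membership M M), IsZF M ∧
    WellFounded (fun x y : M => x ∈ y) ∧
    ∃ X : M, ¬ CanonicalRamsey X ∧ ∀ n : M, IsNat n → RT2 n X := by
  obtain ⟨M, _, hM, hwf, at', A, Supp, hinj, hA, hsupp, hmono, hinv⟩ := Sym.exists_atoms_model
  refine ⟨M, _, hM.toIsZF, hwf, A ∅, ?_, ?_⟩
  · -- CRT fails
    intro h
    obtain ⟨Z, hZ⟩ := exists_pairs (A ∅)
    obtain ⟨Y, R, hY, hYinf, ⟨hirr, htrans, htot⟩, -⟩ := h Z _ _ hZ (isFun_lam Z emp)
    rw [isFinite_iff] at hYinf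
    obtain ⟨E, hE⟩ := hsupp R
    have hS : {i | at' i ∈ Y}.Infinite := by
      intro hfin
      refine hYinf ((hfin.image at').subset fun y hy => ?_)
      obtain ⟨i, -, rfl⟩ := (hA ∅ y).1 (hY y hy)
      exact ⟨i, hy, rfl⟩
    have hS' : ({i | at' i ∈ Y} \ (E : Set ℕ)).Infinite := hS.sdiff E.finite_toSet
    obtain ⟨i, hi, j, hj, hij⟩ := hS'.nontrivial
    obtain ⟨hi, hiE⟩ := hi
    obtain ⟨hj, hjE⟩ := hj
    have key : ∀ i j : ℕ, at' i ∈ Y → at' j ∈ Y → i ∉ (E : Set ℕ) → j ∉ (E : Set ℕ) →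
        Rel R (at' i) (at' j) → False := by
      intro i j hi hj hiE hjE hR
      have h1 : Sat (relF 0 1 2) (fun n => if n = 0 then R else if n = 1 then at' i else at' j) := by
        rw [sat_relF]; exact hR
      have h2 := hinv E (Equiv.swap i j) (fun e he => Equiv.swap_apply_of_ne_of_ne
        (by rintro rfl; exact hiE he) (by rintro rfl; exact hjE he)) _ _
        (fun n => if n = 0 then R else if n = 1 then at' j else at' i) (fun n => by
          split_ifs with h0 h1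
          · exact Or.inl ⟨rfl, hE⟩
          · exact Or.inr ⟨i, rfl, by rw [Equiv.swap_apply_left]⟩
          · exact Or.inr ⟨j, rfl, by rw [Equiv.swap_apply_right]⟩) h1
      rw [sat_relF] at h2
      exact hirr _ hi (htrans _ _ _ hi hj hi hR h2)
    rcases htot _ _ hi hj (fun h => hij (hinj h)) with h | h
    · exact key i j hi hj hiE hjE h
    · exact key j i hj hi hjE hiE h
  · -- RT2
    intro n hn Z c hZ hc
    obtain ⟨N, rfl⟩ := isNat_iff.1 hn
    -- a support of `c` and of the colours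
    obtain ⟨E, hEc, hEn⟩ : ∃ E, Supp E c ∧ ∀ m < N, Supp E (nat m) := by
      obtain ⟨E₀, h0⟩ := hsupp c
      choose F hF using fun m : ℕ => hsupp (nat m)
      refine ⟨E₀ ∪ (Finset.range N).biUnion F, hmono _ _ _ Finset.subset_union_left h0,
        fun m hm => hmono _ _ _ ?_ (hF m)⟩
      exact (Finset.subset_biUnion_of_mem F (Finset.mem_range.2 hm)).trans
        Finset.subset_union_right
    have hEinf : {i : ℕ | i ∉ E}.Infinite := by
      have : {i : ℕ | i ∉ E} = (E : Set ℕ)ᶜ := rfl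
      rw [this]
      exact E.finite_toSet.infinite_compl
    refine ⟨A E, fun z hz => ?_, ?_, ?_⟩
    · obtain ⟨i, -, rfl⟩ := (hA E z).1 hz
      exact (hA ∅ _).2 ⟨i, by simp, rfl⟩
    · rw [isFinite_iff]
      intro hfin
      refine hEinf (Set.Finite.of_finite_image (f := at') (hfin.subset ?_) hinj.injOn)
      rintro _ ⟨i, hi, rfl⟩
      exact (hA E _).2 ⟨i, hi, rfl⟩
    · obtain ⟨i, hi, j, hj, hij⟩ := hEinf.nontrivial
      have hmemZ : ∀ i j : ℕ, i ≠ j → upair (at' i) (at' j) ∈ Z := by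
        intro i j hij
        exact (hZ _).2 ⟨at' i, at' j, (hA ∅ _).2 ⟨i, by simp, rfl⟩, (hA ∅ _).2 ⟨j, by simp, rfl⟩,
          fun h => hij (hinj h), isPair_iff.2 rfl⟩
      obtain ⟨k, hk, -⟩ := hc.2 _ (hmemZ i j hij)
      obtain ⟨z', k', -, hkN, he⟩ := hc.1 _ (rel_iff.1 hk)
      rw [isOPair_iff, op_inj] at he
      obtain ⟨-, rfl⟩ := he
      obtain ⟨m, hm, rfl⟩ := (mem_nat N k).1 hkN
      refine ⟨nat m, fun x y hx hy hxy => ?_⟩
      obtain ⟨i', hi', rfl⟩ := (hA E x).1 hx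
      obtain ⟨j', hj', rfl⟩ := (hA E y).1 hy
      obtain ⟨π, hπ, hπi, hπj⟩ := exists_perm hi hj hi' hj' hij (fun h => hxy (by rw [h]))
      have h1 : Sat (valueF 0 1 2 3) (fun n => if n = 0 then c else if n = 1 then at' i else
          if n = 2 then at' j else nat m) := by
        rw [sat_valueF]
        exact value_iff.2 (rel_iff.1 hk)
      have h2 := hinv E π hπ _ _ (fun n => if n = 0 then c else if n = 1 then at' i' else
          if n = 2 then at' j' else nat m) (fun n => by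
          split_ifs with h0 h1 h2
          · exact Or.inl ⟨rfl, hEc⟩
          · exact Or.inr ⟨i, rfl, by rw [hπi]⟩
          · exact Or.inr ⟨j, rfl, by rw [hπj]⟩
          · exact Or.inl ⟨rfl, hEn m hm⟩) h1
      rw [sat_valueF] at h2
      exact h2

end Pool.Agent.Helper9.CRT
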