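import Pool.Agent.Helper73.Sym.ZF

/-!
Canonical Ramsey finiteness: the notions of the problem, interpreted in a structure `(M, ∈)` for
the language of set theory. All quantifiers range over `M` only.
-/

namespace Pool.Agent.Helper9.CRT

variable {M : Type*} [Membership M M]

/-- `z = {x, y}` -/
def IsPair (x y z : M) : Prop := ∀ w : M, w ∈ z ↔ w = x ∨ w = y

/-- `z` is the ordered pair `(x, y) = {{x, x}, {x, y}}` -/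
def IsOPair (x y z : M) : Prop := ∃ a b : M, IsPair x x a ∧ IsPair x y b ∧ IsPair a b z

/-- `(x, y) ∈ r` -/
def Rel (r x y : M) : Prop := ∃ z : M, IsOPair x y z ∧ z ∈ r

/-- `f` is a function with domain `X` and all values in `Y` -/
def IsFun (f X Y : M) : Prop :=
  (∀ z : M, z ∈ f → ∃ x y : M, x ∈ X ∧ y ∈ Y ∧ IsOPair x y z) ∧
  ∀ x : M, x ∈ X → ∃! y : M, Rel f x y

/-- `f` is a bijection from `X` onto `Y` -/
def IsBij (f X Y : M) : Prop := IsFun f X Y ∧ ∀ y : M, y ∈ Y → ∃! x : M, Rel f x y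

/-- `w` contains the empty set and is closed under `y ↦ y ∪ {y}` -/
def IsInductive (w : M) : Prop :=
  (∃ e : M, e ∈ w ∧ ∀ z : M, ¬ z ∈ e) ∧
  ∀ y : M, y ∈ w → ∃ s : M, s ∈ w ∧ ∀ z : M, z ∈ s ↔ z ∈ y ∨ z = y

/-- `n` is a natural number: an element of every inductive set -/
def IsNat (n : M) : Prop := ∀ w : M, IsInductive w → n ∈ w

/-- `X` is finite: equipotent with a natural number -/
def IsFinite (X : M) : Prop := ∃ n f : M, IsNat n ∧ IsBij f n X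

/-- `Y ⊆ X` -/
def IsSubset (Y X : M) : Prop := ∀ z : M, z ∈ Y → z ∈ X

/-- `Z = [X]²`, the set of all two-element subsets of `X` -/
def IsPairs (X Z : M) : Prop :=
  ∀ z : M, z ∈ Z ↔ ∃ x y : M, x ∈ X ∧ y ∈ X ∧ x ≠ y ∧ IsPair x y z

/-- `f({x, y}) = k` -/
def Value (f x y k : M) : Prop := ∃ z : M, IsPair x y z ∧ Rel f z k

/-- `RT²_n(X)`: for every `c : [X]² → n` there is an infinite `Y ⊆ X` such that `c` is constant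
on `[Y]²` -/
def RT2 (n X : M) : Prop :=
  ∀ Z c : M, IsPairs X Z → IsFun c Z n →
    ∃ Y : M, IsSubset Y X ∧ ¬ IsFinite Y ∧
      ∃ k : M, ∀ x y : M, x ∈ Y → y ∈ Y → x ≠ y → Value c x y k

/-- `R` is a (strict) linear order on `Y` -/
def IsLinearOrder (R Y : M) : Prop :=
  (∀ x : M, x ∈ Y → ¬ Rel R x x) ∧
  (∀ x y z : M, x ∈ Y → y ∈ Y → z ∈ Y → Rel R x y → Rel R y z → Rel R x z) ∧
  ∀ x y : M, x ∈ Y → y ∈ Y → x ≠ y → Rel R x y ∨ Rel R y x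

/-- `f({a₁, b₁}) = f({a₂, b₂})` -/
def Same (f a₁ b₁ a₂ b₂ : M) : Prop := ∃ k : M, Value f a₁ b₁ k ∧ Value f a₂ b₂ k

/-- `f` is canonical on `(Y, R)` -/
def IsCanonical (f Y R : M) : Prop :=
  (∀ a₁ b₁ a₂ b₂ : M, a₁ ∈ Y → b₁ ∈ Y → a₂ ∈ Y → b₂ ∈ Y → Rel R a₁ b₁ → Rel R a₂ b₂ →
    Same f a₁ b₁ a₂ b₂) ∨
  (∀ a₁ b₁ a₂ b₂ : M, a₁ ∈ Y → b₁ ∈ Y → a₂ ∈ Y → b₂ ∈ Y → Rel R a₁ b₁ → Rel R a₂ b₂ →
    (Same f a₁ b₁ a₂ b₂ ↔ a₁ = a₂)) ∨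
  (∀ a₁ b₁ a₂ b₂ : M, a₁ ∈ Y → b₁ ∈ Y → a₂ ∈ Y → b₂ ∈ Y → Rel R a₁ b₁ → Rel R a₂ b₂ →
    (Same f a₁ b₁ a₂ b₂ ↔ b₁ = b₂)) ∨
  (∀ a₁ b₁ a₂ b₂ : M, a₁ ∈ Y → b₁ ∈ Y → a₂ ∈ Y → b₂ ∈ Y → Rel R a₁ b₁ → Rel R a₂ b₂ →
    (Same f a₁ b₁ a₂ b₂ ↔ a₁ = a₂ ∧ b₁ = b₂))

/-- `CRT(X)`: for every set `C` and every `f : [X]² → C` there are an infinite `Y ⊆ X` and a
linear order `R` on `Y` such that `f` is canonical on `(Y, R)` -/
def CanonicalRamsey (X : M) : Prop :=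
  ∀ Z C f : M, IsPairs X Z → IsFun f Z C →
    ∃ Y R : M, IsSubset Y X ∧ ¬ IsFinite Y ∧ IsLinearOrder R Y ∧ IsCanonical f Y R

end Pool.Agent.Helper9.CRT
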